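import Mathlib

/-!
A real Banach space with a 1-unconditional Schauder basis never has the super alternative
Daugavet property.

Idea. If `x = a + b` with `a`, `b` finitely supported on disjoint sets and `‖x‖ = 1`, apply the
super ADP to `x` and to the weak neighbourhood of `a - b` given by the finitely many coordinates in
the supports. A point `y` of it satisfies `x + y ≈ a + (y with the coordinates of b removed)` and
`x - y ≈ b - (y with the coordinates of a removed)`, so `2 ≤ 1 + max ‖a‖ ‖b‖`. Hence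
the norm is the maximum over disjoint blocks, and then the super ADP fails at the normalised first
basis vector.
-/

namespace Pool.Agent.Results.MP_235f01_an.NoUnconditionalBasis

open Filter Topology

section Defs

variable (X : Type*) [NormedAddCommGroup X] [NormedSpace ℝ X]

/-- `W` is a relatively weakly open subset of the closed unit ball of `X`. -/
def RelWeaklyOpen (W : Set X) : Prop :=
  ∃ U : Set (WeakSpace ℝ X), IsOpen U ∧
    W = {y : X | toWeakSpace ℝ X y ∈ U} ∩ Metric.closedBall (0 : X) 1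

/-- The super alternative Daugavet property: `X` is infinite-dimensional, and for every norm one
`x` and every nonempty relatively weakly open `W` in the unit ball, the supremum over `y` in `W` of
`max ‖x + y‖ ‖x - y‖` is `2`. -/
structure SuperADP : Prop where
  infinite : ¬ FiniteDimensional ℝ X
  isLUB : ∀ x : X, ‖x‖ = 1 → ∀ W : Set X, RelWeaklyOpen X W → W.Nonempty →
    IsLUB ((fun y : X => max ‖x + y‖ ‖x - y‖) '' W) 2

variable {X}

/-- The Schauder basis `b` is 1-unconditional: changing signs of the coordinates of a finitely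
supported vector does not change its norm. -/
def OneUnconditional (b : SchauderBasis ℝ X) : Prop :=
  ∀ (s : Finset ℕ) (a : ℕ → ℝ) (ε : ℕ → ℝ), (∀ n, ε n = 1 ∨ ε n = -1) →
    ‖∑ n ∈ s, (ε n * a n) • b n‖ = ‖∑ n ∈ s, a n • b n‖

end Defs

section Proof

variable {X : Type*} [NormedAddCommGroup X] [NormedSpace ℝ X]

/-- the projection on a finite set of coordinates -/
noncomputable def pr (b : SchauderBasis ℝ X) (F : Finset ℕ) (x : X) : X :=
  ∑ n ∈ F, b.coord n x • b n

lemma tendsto_pr (b : SchauderBasis ℝ X) (x : X) :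
    Tendsto (fun N => pr b (Finset.range N) x) atTop (𝓝 x) := by
  simpa [pr] using SchauderBasis.tendsto_proj b x

/-- flipping signs on a finite set of coordinates is isometric -/
lemma norm_flip {b : SchauderBasis ℝ X} (hb : OneUnconditional b) (F : Finset ℕ) (x : X) :
    ‖x - (2 : ℝ) • pr b F x‖ = ‖x‖ := by
  classical
  have h1 : Tendsto (fun N => ‖pr b (Finset.range N) x - (2 : ℝ) • pr b F x‖) atTop
      (𝓝 ‖x - (2 : ℝ) • pr b F x‖) :=
    ((tendsto_pr b x).sub tendsto_const_nhds).norm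
  have h2 : Tendsto (fun N => ‖pr b (Finset.range N) x‖) atTop (𝓝 ‖x‖) := (tendsto_pr b x).norm
  refine tendsto_nhds_unique (h1.congr' ?_) h2
  obtain ⟨M, hM⟩ : ∃ M : ℕ, F ⊆ Finset.range M := by
    refine ⟨F.sup id + 1, fun n hn => ?_⟩
    simpa [Nat.lt_succ_iff] using Finset.le_sup (f := id) hn
  filter_upwards [eventually_ge_atTop M] with N hN
  have hF : F ⊆ Finset.range N := hM.trans (Finset.range_subset_range.2 hN)
  rw [show pr b (Finset.range N) x = ∑ n ∈ Finset.range N, b.coord n x • b n from rfl,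
    ← hb (Finset.range N) (fun n => b.coord n x) (fun n => if n ∈ F then -1 else 1)
      (fun n => by by_cases h : n ∈ F <;> simp [h])]
  congr 1
  have : (2 : ℝ) • pr b F x
      = ∑ n ∈ Finset.range N, (if n ∈ F then (2 * b.coord n x) • b n else 0) := by
    rw [Finset.sum_ite_mem, Finset.inter_eq_right.2 hF, pr, Finset.smul_sum]
    exact Finset.sum_congr rfl fun n _ => smul_smul _ _ _
  rw [this, ← Finset.sum_sub_distrib]
  refine Finset.sum_congr rfl fun n _ => ?_
  by_cases h : n ∈ F
  · simp only [h, if_true, ← sub_smul]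
    congr 1
    ring
  · simp [h]

/-- removing finitely many coordinates is contractive -/
lemma norm_sub_pr_le {b : SchauderBasis ℝ X} (hb : OneUnconditional b) (F : Finset ℕ) (x : X) :
    ‖x - pr b F x‖ ≤ ‖x‖ := by
  have h : x - pr b F x = (1 / 2 : ℝ) • (x + (x - (2 : ℝ) • pr b F x)) := by
    module
  rw [h, norm_smul]
  have := norm_add_le x (x - (2 : ℝ) • pr b F x)
  rw [norm_flip hb] at this
  norm_num
  linarith

/-- the coordinate neighbourhoods are relatively weakly open -/
lemma relWeaklyOpen (b : SchauderBasis ℝ X) (F : Finset ℕ) (z : X) (δ : ℝ) :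
    RelWeaklyOpen X ({y : X | ∀ n ∈ F, |b.coord n y - b.coord n z| < δ} ∩
      Metric.closedBall (0 : X) 1) := by
  refine ⟨{y | ∀ n ∈ F, |(b.coord n ((toWeakSpace ℝ X).symm y)) - b.coord n z| < δ}, ?_, ?_⟩
  · have : {y : WeakSpace ℝ X | ∀ n ∈ F,
        |(b.coord n ((toWeakSpace ℝ X).symm y)) - b.coord n z| < δ}
        = ⋂ n ∈ F, {y | |(b.coord n ((toWeakSpace ℝ X).symm y)) - b.coord n z| < δ} := by
      ext y; simp
    rw [this]
    refine isOpen_biInter_finset fun n _ => ?_
    have hc : Continuous fun y : WeakSpace ℝ X => b.coord n ((toWeakSpace ℝ X).symm y) :=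
      WeakBilin.eval_continuous (topDualPairing ℝ X).flip (b.coord n)
    exact isOpen_lt ((hc.sub continuous_const).abs) continuous_const
  · ext y
    simp

/-- In a super ADP space the norm of a norm one sum of two disjoint blocks is at most the maximum
of the norms of the blocks. -/
lemma one_le_max {b : SchauderBasis ℝ X} (hb : OneUnconditional b) (hX : SuperADP X)
    (s t : Finset ℕ) (hst : Disjoint s t) (a : ℕ → ℝ)
    (h1 : ‖∑ n ∈ s, a n • b n + ∑ n ∈ t, a n • b n‖ = 1) :
    1 ≤ max ‖∑ n ∈ s, a n • b n‖ ‖∑ n ∈ t, a n • b n‖ := by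
  classical
  set A := ∑ n ∈ s, a n • b n with hA
  set B := ∑ n ∈ t, a n • b n with hB
  have hcoord : ∀ (F : Finset ℕ) (m : ℕ), b.coord m (∑ n ∈ F, a n • b n)
      = if m ∈ F then a m else 0 := by
    intro F m
    simp [b.ortho, Pi.single_apply]
  have hz : ‖A - B‖ = 1 := by
    rw [← h1]
    have := hb (s ∪ t) a (fun n => if n ∈ t then -1 else 1)
      (fun n => by by_cases h : n ∈ t <;> simp [h])
    rw [Finset.sum_union hst, Finset.sum_union hst] at this
    rw [← this]
    congr 1
    have e1 : ∑ n ∈ s, ((if n ∈ t then (-1 : ℝ) else 1) * a n) • b n = A := by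
      refine Finset.sum_congr rfl fun n hn => ?_
      rw [if_neg (Finset.disjoint_left.1 hst hn), one_mul]
    have e2 : ∑ n ∈ t, ((if n ∈ t then (-1 : ℝ) else 1) * a n) • b n = - B := by
      rw [hB, ← Finset.sum_neg_distrib]
      refine Finset.sum_congr rfl fun n hn => ?_
      rw [if_pos hn]
      module
    rw [e1, e2, sub_eq_add_neg]
  set C := ∑ n ∈ s ∪ t, ‖b n‖ with hC
  have hC0 : 0 ≤ C := Finset.sum_nonneg fun n _ => norm_nonneg _
  -- main estimate for each δ
  have key : ∀ δ : ℝ, 0 < δ → 2 - δ ≤ max ‖A‖ ‖B‖ + 1 + δ * C := by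
    intro δ hδ
    set W : Set X := {y : X | ∀ n ∈ s ∪ t, |b.coord n y - b.coord n (A - B)| < δ} ∩
      Metric.closedBall (0 : X) 1 with hW
    have hne : W.Nonempty := ⟨A - B, fun n _ => by simpa using hδ, by simp [hz]⟩
    have hlub := hX.isLUB (A + B) h1 W (relWeaklyOpen b (s ∪ t) (A - B) δ) hne
    obtain ⟨_, ⟨y, hy, rfl⟩, hy2⟩ := hlub.exists_between (show (2 : ℝ) - δ < 2 by linarith)
    have hy3 : 2 - δ < max ‖A + B + y‖ ‖A + B - y‖ := hy2.1
    have hyn : ‖y‖ ≤ 1 := by simpa using hy.2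
    have hs : ∀ n ∈ s, |b.coord n y - a n| < δ := by
      intro n hn
      have := hy.1 n (Finset.mem_union_left _ hn)
      rwa [map_sub, hA, hB, hcoord, hcoord, if_pos hn, if_neg (Finset.disjoint_left.1 hst hn),
        sub_zero] at this
    have ht : ∀ n ∈ t, |b.coord n y + a n| < δ := by
      intro n hn
      have := hy.1 n (Finset.mem_union_right _ hn)
      rwa [map_sub, hA, hB, hcoord, hcoord, if_pos hn, if_neg (Finset.disjoint_right.1 hst hn),
        zero_sub, sub_neg_eq_add] at this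
    have hsmall : ∀ (F : Finset ℕ), F ⊆ s ∪ t → ∀ c : ℕ → ℝ, (∀ n ∈ F, |c n| ≤ δ) →
        ‖∑ n ∈ F, c n • b n‖ ≤ δ * C := by
      intro F hF c hc
      calc ‖∑ n ∈ F, c n • b n‖ ≤ ∑ n ∈ F, ‖c n • b n‖ := norm_sum_le _ _
        _ ≤ ∑ n ∈ F, δ * ‖b n‖ := Finset.sum_le_sum fun n hn => by
            rw [norm_smul]
            exact mul_le_mul_of_nonneg_right (hc n hn) (norm_nonneg _)
        _ = δ * ∑ n ∈ F, ‖b n‖ := (Finset.mul_sum _ _ _).symm
        _ ≤ δ * C := mul_le_mul_of_nonneg_left
            (Finset.sum_le_sum_of_subset_of_nonneg hF fun n _ _ => norm_nonneg _) hδ.le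
    have hBt : ‖B + pr b t y‖ ≤ δ * C := by
      have e : B + pr b t y = ∑ n ∈ t, (b.coord n y + a n) • b n := by
        rw [hB, pr, ← Finset.sum_add_distrib]
        exact Finset.sum_congr rfl fun n _ => by module
      rw [e]
      exact hsmall t Finset.subset_union_right _ fun n hn => (ht n hn).le
    have hAs : ‖A - pr b s y‖ ≤ δ * C := by
      have e : A - pr b s y = ∑ n ∈ s, (-(b.coord n y - a n)) • b n := by
        rw [hA, pr, ← Finset.sum_sub_distrib]
        exact Finset.sum_congr rfl fun n _ => by module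
      rw [e]
      exact hsmall s Finset.subset_union_left _ fun n hn => by
        rw [abs_neg]; exact (hs n hn).le
    have e1 : ‖A + B + y‖ ≤ ‖A‖ + 1 + δ * C := by
      have : A + B + y = A + (y - pr b t y) + (B + pr b t y) := by abel
      rw [this]
      calc _ ≤ ‖A‖ + ‖y - pr b t y‖ + ‖B + pr b t y‖ := norm_add₃_le
        _ ≤ _ := by
          have := norm_sub_pr_le hb t y
          linarith
    have e2 : ‖A + B - y‖ ≤ ‖B‖ + 1 + δ * C := by
      have : A + B - y = B + (-(y - pr b s y)) + (A - pr b s y) := by abel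
      rw [this]
      calc _ ≤ ‖B‖ + ‖-(y - pr b s y)‖ + ‖A - pr b s y‖ := norm_add₃_le
        _ ≤ _ := by
          have := norm_sub_pr_le hb s y
          rw [norm_neg]
          linarith
    have : max ‖A + B + y‖ ‖A + B - y‖ ≤ max ‖A‖ ‖B‖ + 1 + δ * C :=
      max_le (e1.trans (by linarith [le_max_left ‖A‖ ‖B‖]))
        (e2.trans (by linarith [le_max_right ‖A‖ ‖B‖]))
    linarith
  by_contra hlt
  push Not at hlt
  have hpos : 0 < 1 - max ‖A‖ ‖B‖ := by linarith
  have := key ((1 - max ‖A‖ ‖B‖) / (2 * (1 + C))) (by positivity)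
  have h3 : (1 - max ‖A‖ ‖B‖) / (2 * (1 + C)) * (1 + C) = (1 - max ‖A‖ ‖B‖) / 2 := by
    field_simp
  nlinarith

/-- The norm of a sum of two disjoint blocks is at most the maximum of their norms. -/
lemma norm_le_max {b : SchauderBasis ℝ X} (hb : OneUnconditional b) (hX : SuperADP X)
    (s t : Finset ℕ) (hst : Disjoint s t) (a : ℕ → ℝ) :
    ‖∑ n ∈ s, a n • b n + ∑ n ∈ t, a n • b n‖ ≤
      max ‖∑ n ∈ s, a n • b n‖ ‖∑ n ∈ t, a n • b n‖ := by
  set A := ∑ n ∈ s, a n • b n with hA
  set B := ∑ n ∈ t, a n • b n with hB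
  by_cases h0 : ‖A + B‖ = 0
  · rw [h0]
    exact le_max_of_le_left (norm_nonneg _)
  have hpos : 0 < ‖A + B‖ := lt_of_le_of_ne (norm_nonneg _) (Ne.symm h0)
  have hs : ∀ F : Finset ℕ, ∑ n ∈ F, (‖A + B‖⁻¹ * a n) • b n
      = ‖A + B‖⁻¹ • ∑ n ∈ F, a n • b n := by
    intro F
    rw [Finset.smul_sum]
    exact Finset.sum_congr rfl fun n _ => (smul_smul _ _ _).symm
  have := one_le_max hb hX s t hst (fun n => ‖A + B‖⁻¹ * a n) (by
    rw [hs, hs, ← smul_add, norm_smul, norm_inv, norm_norm, inv_mul_cancel₀ h0])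
  rw [hs, hs, norm_smul, norm_smul, norm_inv, norm_norm, ← mul_max_of_nonneg _ _
    (inv_nonneg.2 hpos.le)] at this
  rwa [inv_mul_eq_div, one_le_div hpos] at this

end Proof

/-- No real Banach space with a 1-unconditional Schauder basis has the super alternative Daugavet
property. -/
theorem result (X : Type*) [NormedAddCommGroup X] [NormedSpace ℝ X] [CompleteSpace X]
    (b : SchauderBasis ℝ X) (hb : OneUnconditional b) : ¬ SuperADP X := by
  intro hX
  have hb0 : b 0 ≠ 0 := by
    intro h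
    have := b.ortho 0 0
    rw [h, map_zero] at this
    simp at this
  have hn0 : 0 < ‖b 0‖ := norm_pos_iff.2 hb0
  -- maximum formula with one coordinate
  have hmax : ∀ (c : ℝ) (v : X), b.coord 0 v = 0 → ‖c • b 0 + v‖ ≤ max ‖c • b 0‖ ‖v‖ := by
    intro c v hv
    have h1 : Tendsto (fun N => ‖c • b 0 + pr b (Finset.range N) v‖) atTop
        (𝓝 ‖c • b 0 + v‖) := (tendsto_const_nhds.add (tendsto_pr b v)).norm
    have h2 : Tendsto (fun N => max ‖c • b 0‖ ‖pr b (Finset.range N) v‖) atTop
        (𝓝 (max ‖c • b 0‖ ‖v‖)) := tendsto_const_nhds.max (tendsto_pr b v).norm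
    refine le_of_tendsto_of_tendsto' h1 h2 fun N => ?_
    have := norm_le_max hb hX {0} ((Finset.range N).erase 0) (by simp)
      (fun n => if n = 0 then c else b.coord n v)
    have e1 : ∑ n ∈ ({0} : Finset ℕ), (if n = 0 then c else b.coord n v) • b n = c • b 0 := by
      simp
    have e2 : ∑ n ∈ (Finset.range N).erase 0, (if n = 0 then c else b.coord n v) • b n
        = pr b (Finset.range N) v := by
      have : pr b (Finset.range N) v = ∑ n ∈ (Finset.range N).erase 0, b.coord n v • b n := by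
        rw [pr]
        refine (Finset.sum_subset (Finset.erase_subset _ _) fun n hn hn2 => ?_).symm
        have : n = 0 := by
          by_contra h
          exact hn2 (Finset.mem_erase.2 ⟨h, hn⟩)
        rw [this, hv, zero_smul]
      rw [this]
      refine Finset.sum_congr rfl fun n hn => ?_
      rw [if_neg (Finset.ne_of_mem_erase hn)]
    rwa [e1, e2] at this
  set e : X := ‖b 0‖⁻¹ • b 0 with he
  have hne : ‖e‖ = 1 := by
    rw [he, norm_smul, norm_inv, norm_norm, inv_mul_cancel₀ hn0.ne']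
  set δ : ℝ := 1 / (2 * (1 + ‖b 0‖)) with hδ
  have hδ0 : 0 < δ := by positivity
  set W : Set X := {y : X | ∀ n ∈ ({0} : Finset ℕ), |b.coord n y - b.coord n 0| < δ} ∩
      Metric.closedBall (0 : X) 1 with hW
  have hlub := hX.isLUB e hne W (relWeaklyOpen b {0} 0 δ) ⟨0, fun n _ => by simpa using hδ0, by simp⟩
  obtain ⟨_, ⟨y, hy, rfl⟩, hy2⟩ := hlub.exists_between (show (2 : ℝ) - 1 / 2 < 2 by norm_num)
  have hy3 : 2 - 1 / 2 < max ‖e + y‖ ‖e - y‖ := hy2.1
  have hyn : ‖y‖ ≤ 1 := by simpa using hy.2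
  have hy0 : |b.coord 0 y| < δ := by simpa using hy.1 0 (by simp)
  have hrest : ‖y - pr b {0} y‖ ≤ 1 := (norm_sub_pr_le hb {0} y).trans hyn
  have hcoord : b.coord 0 (y - pr b {0} y) = 0 := by
    simp [pr, b.ortho]
  have hbound : ∀ c : ℝ, |c| ≤ δ → ‖(‖b 0‖⁻¹ + c) • b 0‖ ≤ 1 + 1 / 2 := by
    intro c hc
    rw [norm_smul, Real.norm_eq_abs]
    have h1 : |‖b 0‖⁻¹ + c| ≤ ‖b 0‖⁻¹ + δ := by
      refine (abs_add_le _ _).trans (add_le_add ?_ hc)
      rw [abs_of_pos (inv_pos.2 hn0)]
    calc |‖b 0‖⁻¹ + c| * ‖b 0‖ ≤ (‖b 0‖⁻¹ + δ) * ‖b 0‖ :=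
          mul_le_mul_of_nonneg_right h1 hn0.le
      _ = 1 + δ * ‖b 0‖ := by
          rw [add_mul, inv_mul_cancel₀ hn0.ne']
      _ ≤ 1 + 1 / 2 := by
          have : δ * ‖b 0‖ ≤ 1 / 2 := by
            rw [hδ, div_mul_eq_mul_div, one_mul, div_le_iff₀ (by positivity)]
            linarith
          linarith
  have e1 : ‖e + y‖ ≤ 1 + 1 / 2 := by
    have : e + y = (‖b 0‖⁻¹ + b.coord 0 y) • b 0 + (y - pr b {0} y) := by
      simp only [pr, Finset.sum_singleton, he]
      module
    rw [this]
    exact (hmax _ _ hcoord).trans (max_le (hbound _ hy0.le) (hrest.trans (by norm_num)))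
  have e2 : ‖e - y‖ ≤ 1 + 1 / 2 := by
    have : e - y = (‖b 0‖⁻¹ + -(b.coord 0 y)) • b 0 + -(y - pr b {0} y) := by
      simp only [pr, Finset.sum_singleton, he]
      module
    rw [this]
    refine (hmax _ _ (by rw [map_neg, hcoord, neg_zero])).trans
      (max_le (hbound _ (by rw [abs_neg]; exact hy0.le)) ?_)
    rw [norm_neg]
    exact hrest.trans (by norm_num)
  have := max_le e1 e2
  linarith

end Pool.Agent.Results.MP_235f01_an.NoUnconditionalBasis
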